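import Pool.Agent.Helper67.LM.Defs

/-! # Packet LM CUB (MP_6fb600_gt): integrals over the unit cube -/

open MeasureTheory Set
open scoped ENNReal

noncomputable section

namespace Pool.Agent.Helper31.LM

open Pool.Agent.Helper67.LM

/-- The uniform measure on `(0,1)`. -/
def nu : Measure ℝ := volume.restrict (Ioo (0 : ℝ) 1)

instance : IsProbabilityMeasure nu := ⟨by
  unfold nu
  rw [Measure.restrict_apply_univ, Real.volume_Ioo]; norm_num⟩

variable {ι : Type} [Fintype ι] [DecidableEq ι]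

theorem cub_eq : cub ι = Set.univ.pi (fun _ : ι => Ioo (0 : ℝ) 1) := by
  ext x
  simp [cub, Set.mem_pi]

theorem measurableSet_cub : MeasurableSet (cub ι) := by
  rw [cub_eq]
  exact MeasurableSet.univ_pi (fun _ => measurableSet_Ioo)

theorem restrict_cub : (volume : Measure (ι → ℝ)).restrict (cub ι) =
    Measure.pi (fun _ : ι => nu) := by
  rw [cub_eq, volume_pi, Measure.restrict_pi_pi]
  rfl

theorem continuous_ciInf [Nonempty ι] : Continuous (fun u : ι → ℝ => ⨅ j, u j) := by
  have : (fun u : ι → ℝ => ⨅ j, u j) =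
      fun u => (Finset.univ : Finset ι).inf' Finset.univ_nonempty (fun j => u j) := by
    funext u
    rw [Finset.inf'_eq_csInf_image, Finset.coe_univ, Set.image_univ]
    rfl
  rw [this]
  exact Continuous.finset_inf'_apply Finset.univ_nonempty (fun j _ => continuous_apply j)

theorem lt_ciInf_iff' [Nonempty ι] (u : ι → ℝ) (t : ℝ) : t < ⨅ j, u j ↔ ∀ j, t < u j := by
  constructor
  · intro h j
    exact h.trans_le (ciInf_le (Set.finite_range u).bddBelow j)
  · intro h
    obtain ⟨j, hj⟩ := exists_eq_ciInf_of_finite (f := u)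
    rw [← hj]
    exact h j

theorem nu_Ioi {t : ℝ} (h0 : 0 ≤ t) (h1 : t ≤ 1) : nu (Ioi t) = ENNReal.ofReal (1 - t) := by
  unfold nu
  rw [Measure.restrict_apply measurableSet_Ioi]
  have : Ioi t ∩ Ioo (0 : ℝ) 1 = Ioo t 1 := by
    ext x
    simp only [mem_inter_iff, mem_Ioi, mem_Ioo]
    constructor
    · rintro ⟨h1, h2, h3⟩; exact ⟨h1, h3⟩
    · rintro ⟨h1, h3⟩; exact ⟨h1, by linarith, h3⟩
  rw [this, Real.volume_Ioo]

theorem nu_Ioi' {t : ℝ} (h1 : 1 < t) : nu (Ioi t) = 0 := by
  unfold nu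
  rw [Measure.restrict_apply measurableSet_Ioi]
  have : Ioi t ∩ Ioo (0 : ℝ) 1 = ∅ := by
    ext x
    simp only [mem_inter_iff, mem_Ioi, mem_Ioo, mem_empty_iff_false, iff_false]
    rintro ⟨h1, h2, h3⟩; linarith
  rw [this, measure_empty]

theorem pi_lt [Nonempty ι] (t : ℝ) : (Measure.pi (fun _ : ι => nu)) {u : ι → ℝ | t < ⨅ j, u j} =
    (nu (Ioi t)) ^ Fintype.card ι := by
  have : {u : ι → ℝ | t < ⨅ j, u j} = Set.univ.pi (fun _ : ι => Ioi t) := by
    ext u
    simp only [mem_setOf_eq, Set.mem_pi, mem_univ, mem_Ioi, true_implies]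
    exact lt_ciInf_iff' u t
  rw [this, Measure.pi_pi]
  simp

theorem int_pow (n : ℕ) : ∫ t in Ioc (0 : ℝ) 1, (1 - t) ^ n = 1 / ((n : ℝ) + 1) := by
  rw [← intervalIntegral.integral_of_le zero_le_one]
  rw [intervalIntegral.integral_comp_sub_left (fun t => t ^ n) 1]
  simp

theorem cub_bounds {u : ι → ℝ} [Nonempty ι] (hu : u ∈ cub ι) : 0 < (⨅ j, u j) ∧ (⨅ j, u j) ≤ 1 := by
  constructor
  · exact (lt_ciInf_iff' u 0).2 (fun j => (hu j).1)
  · obtain ⟨j⟩ := (inferInstance : Nonempty ι)
    exact (ciInf_le (Set.finite_range u).bddBelow j).trans (hu j).2.le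

theorem cub [Nonempty ι] : volume (cub ι) = 1 ∧ (∀ i, ∫ u in cub ι, u i = 1 / 2) ∧
    ∫ u in cub ι, (⨅ j, u j) = 1 / ((Fintype.card ι : ℝ) + 1) ∧
    ∀ κ : ℝ, 0 ≤ κ → (volume {u : ι → ℝ | u ∈ cub ι ∧ (⨅ j, u j) < κ}).toReal ≤
      Fintype.card ι * κ := by
  refine ⟨?_, ?_, ?_, ?_⟩
  · rw [← Measure.restrict_apply_univ, restrict_cub]
    exact measure_univ
  · intro i
    rw [restrict_cub, integral_eval]
    unfold nu
    rw [← integral_Ioc_eq_integral_Ioo, ← intervalIntegral.integral_of_le zero_le_one]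
    rw [integral_id]; norm_num
  · have hmem : ∀ᵐ u ∂((volume : Measure (ι → ℝ)).restrict (Helper67.LM.cub ι)),
        u ∈ Helper67.LM.cub ι := ae_restrict_mem measurableSet_cub
    have hint : Integrable (fun u : ι → ℝ => ⨅ j, u j)
        ((volume : Measure (ι → ℝ)).restrict (Helper67.LM.cub ι)) := by
      rw [restrict_cub] at hmem ⊢
      refine (integrable_const (1 : ℝ)).mono' continuous_ciInf.aestronglyMeasurable ?_
      filter_upwards [hmem] with u hu
      have := cub_bounds hu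
      rw [Real.norm_eq_abs, abs_of_pos this.1]
      exact this.2
    have hnn : 0 ≤ᵐ[(volume : Measure (ι → ℝ)).restrict (Helper67.LM.cub ι)]
        (fun u : ι → ℝ => ⨅ j, u j) := by
      filter_upwards [hmem] with u hu
      exact (cub_bounds hu).1.le
    rw [hint.integral_eq_integral_meas_lt hnn, restrict_cub]
    have hval : ∀ t ∈ Ioi (0 : ℝ), (Measure.pi (fun _ : ι => nu)).real {u : ι → ℝ | t < ⨅ j, u j} =
        (Ioc (0 : ℝ) 1).indicator (fun t => (1 - t) ^ Fintype.card ι) t := by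
      intro t ht
      have ht' : 0 < t := ht
      rw [measureReal_def, pi_lt]
      by_cases h1 : t ≤ 1
      · rw [nu_Ioi ht'.le h1, indicator_of_mem (show t ∈ Ioc (0 : ℝ) 1 from ⟨ht', h1⟩),
          ENNReal.toReal_pow, ENNReal.toReal_ofReal (by linarith)]
      · rw [nu_Ioi' (not_le.1 h1), indicator_of_notMem (fun h => h1 h.2),
          zero_pow (Fintype.card_ne_zero)]
        rfl
    rw [setIntegral_congr_fun measurableSet_Ioi hval, setIntegral_indicator measurableSet_Ioc]
    have : Ioi (0 : ℝ) ∩ Ioc 0 1 = Ioc 0 1 := inter_eq_right.2 (fun x hx => hx.1)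
    rw [this]
    exact int_pow _
  · intro κ hκ
    have h1 : (volume {u : ι → ℝ | u ∈ Helper67.LM.cub ι ∧ (⨅ j, u j) < κ}) =
        (Measure.pi (fun _ : ι => nu)) {u : ι → ℝ | (⨅ j, u j) < κ} := by
      rw [← restrict_cub, Measure.restrict_apply]
      · congr 1
        ext u
        simp only [mem_setOf_eq, mem_inter_iff]
        exact and_comm
      · exact (isOpen_Iio.preimage continuous_ciInf).measurableSet
    have h2 : {u : ι → ℝ | (⨅ j, u j) < κ} ⊆ ⋃ i : ι, (Function.eval i) ⁻¹' (Iio κ) := by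
      intro u hu
      obtain ⟨j, hj⟩ := exists_eq_ciInf_of_finite (f := u)
      refine mem_iUnion.2 ⟨j, ?_⟩
      show u j < κ
      rw [hj]; exact hu
    have h3 : ∀ i : ι, (Measure.pi (fun _ : ι => nu)) ((Function.eval i) ⁻¹' (Iio κ)) ≤
        ENNReal.ofReal κ := by
      intro i
      rw [(measurePreserving_eval (fun _ : ι => nu) i).measure_preimage
        measurableSet_Iio.nullMeasurableSet]
      unfold nu
      rw [Measure.restrict_apply measurableSet_Iio]
      have : Iio κ ∩ Ioo (0 : ℝ) 1 ⊆ Ioo 0 κ := fun x hx => ⟨hx.2.1, hx.1⟩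
      refine (measure_mono this).trans ?_
      rw [Real.volume_Ioo, sub_zero]
    rw [h1]
    have h4 : (Measure.pi (fun _ : ι => nu)) {u : ι → ℝ | (⨅ j, u j) < κ} ≤
        ENNReal.ofReal (Fintype.card ι * κ) := by
      refine (measure_mono h2).trans ((measure_iUnion_fintype_le _ _).trans ?_)
      refine (Finset.sum_le_sum (fun i _ => h3 i)).trans ?_
      rw [Finset.sum_const, Finset.card_univ, nsmul_eq_mul,
        ENNReal.ofReal_mul (by positivity), ENNReal.ofReal_natCast]
    exact ENNReal.toReal_le_of_le_ofReal (by positivity) h4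

end Pool.Agent.Helper31.LM
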